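import Pool.Agent.H82.HD.TW
import Pool.Agent.H81.GT.LEVX
import Pool.Agent.H83.G.BroC

/-!
MP_ee74d2_an, theorem HD: from the level sets to one sector.
-/

set_option autoImplicit false

namespace Pool.Agent.H38.HD

open MeasureTheory Set FourierTransform
open scoped ENNReal NNReal RealInnerProductSpace
open Pool.Agent.H83.LS
open Pool.Agent.H83.G (Z E TF Rg Cls pl Lo Bp TP Sep IsPU Ks ctr sR)
open Pool.Agent.H83.G.BRO (Cls_monoA)
open Pool.Agent.H81.GT
open Pool.Agent.H82.HD (T_BC0 T_LEVp BC Bdp tm)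

theorem BC_monoA {m : ℕ} {β : E m → ℂ} {κ R T A A' : ℝ} {G : Z m → ℂ} (hR : 0 < R) (hA : 0 ≤ A)
    (h : A ≤ A') (hB : BC β κ R T A G) : BC β κ R T A' G := by
  intro ρ z₁ p hρ hρR h1 h2
  refine (hB ρ z₁ p hρ hρR h1 h2).trans (ENNReal.ofReal_le_ofReal ?_)
  have h3 : A ^ 2 ≤ A' ^ 2 := pow_le_pow_left₀ hA h 2
  have h4 : 0 ≤ R ^ m := by positivity
  have h5 : 0 ≤ ρ ^ (3 - (m : ℝ) / 2) := Real.rpow_nonneg (by linarith) _
  exact mul_le_mul_of_nonneg_right (mul_le_mul_of_nonneg_right h3 h4) h5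

theorem pf_LEVp (hBC0 : T_BC0) (hTX : Pool.Agent.H81.GT.T_TX) (hCOV : Pool.Agent.H81.GT.T_COV)
    (hREP : Pool.Agent.H81.GT.T_REP) (hGL2 : Pool.Agent.H81.GT.T_GL2)
    (hCLS : Pool.Agent.H81.GT.T_CLS) (hSPK : Pool.Agent.H83.G.T_SPK)
    (hPUX : Pool.Agent.H83.G.T_PUX) (hSCH : Pool.Agent.H83.G.T_SCH) : T_LEVp := by
  intro n κ x q hn hκ hx0 hq' hMAIN η a hη ha
  have _ := hPUX
  have hq2 : 2 < q := by linarith
  obtain ⟨X, χ, hX⟩ := hTX
  set δ : ℝ := η / (2 * q) with hδ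
  have hδ0 : 0 < δ := by positivity
  have hεδ : η / 2 + δ * (q - 2) ≤ η := by
    have : δ * q = η / 2 := by rw [hδ]; field_simp
    nlinarith
  obtain ⟨L, β, Cm, hL, hβ, hCm, hm⟩ := hMAIN (η / 2) (by positivity)
  obtain ⟨Cc0, hCc0, hc⟩ := hCLS n L κ δ a X χ hn hL hκ ha hX hδ0
  obtain ⟨Cb, hCb, hb⟩ := hBC0 n L κ δ β a X χ hn hL hκ hβ ha hX hδ0
  obtain ⟨Cg, hCg, hg⟩ := hGL2 n κ a X χ hκ ha hX
  obtain ⟨Cs, hCs, hs⟩ := hSPK n L β hβ
  set Cc : ℝ := Cc0 + Cb with hCcdef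
  have hCc : 0 < Cc := by linarith
  set c₀ : ℝ≥0∞ := volume (Metric.ball (0 : Z n) 1) with hc₀
  have hc₀t : c₀ ≠ ⊤ := by
    have := haarZ n
    exact measure_ball_lt_top.ne
  set C₁ : ℝ := q / (q - (2 + x)) * (Cs ^ (q - (2 + x)) * Cc ^ (q - 2) * Cm * Cg) with hC₁
  have hC₁0 : 0 < C₁ := by
    have : 0 < q - (2 + x) := by linarith
    positivity
  refine ⟨(2 * c₀ * ENNReal.ofReal C₁).toNNReal, ?_⟩
  intro R A f hR hf
  have hR0 : 0 < R := by linarith
  rw [ENNReal.coe_toNNReal (by finiteness)]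
  have hA0 : 0 ≤ A := (norm_nonneg (f 0)).trans (hf.2.1 0)
  rcases hA0.eq_or_lt with hA | hA
  · have hf0 : f = 0 := by
      funext x
      have := hf.2.1 x
      rw [← hA] at this
      exact norm_le_zero_iff.1 this
    have : ∀ t x, Ua a t f x = 0 := by
      intro t x
      unfold Ua MM
      have h0 : 𝓕 f = 0 := by
        rw [hf0]
        funext ξ
        simp [Real.fourier_eq]
      rw [h0]
      simp
    simp only [this]
    rw [lintegral_congr (g := fun _ => 0)]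
    · simp
    · intro t
      rw [lintegral_congr (g := fun _ => 0)]
      · simp
      · intro x
        rw [enorm_zero, ENNReal.zero_rpow_of_pos (by linarith)]
  set G := Gf X R a f with hG
  obtain ⟨hTC, hRg, hrep⟩ := hREP n κ R A a f X χ hκ ha hX hR hf
  have hRδ : 0 < R ^ δ := Real.rpow_pos_of_pos hR0 _
  have hcls : Cls L (1 / 4) R (Cc * R ^ δ * A) G := by
    refine Cls_monoA hR0 (by positivity) ?_ (hc R A f hR hA hf)
    have : Cc0 * R ^ δ ≤ Cc * R ^ δ := mul_le_mul_of_nonneg_right (by linarith) hRδ.le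
    exact mul_le_mul_of_nonneg_right this hA.le
  have hbc : BC β (1 / 4) R R (Cc * R ^ δ * A) G := by
    refine BC_monoA hR0 (by positivity) ?_ (hb R A f hR hA hf)
    have : Cb * R ^ δ ≤ Cc * R ^ δ := mul_le_mul_of_nonneg_right (by linarith) hRδ.le
    exact mul_le_mul_of_nonneg_right this hA.le
  have hA' : 0 < Cc * R ^ δ * A := by positivity
  have hmain := fun (H : ℝ) (hH : 0 < H) (X' : Finset (Z n)) (hX' : Sep X')
    (h : ∀ z ∈ X', R ≤ tm z ∧ tm z ≤ 2 * R ∧ H ≤ ‖TF G z‖) =>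
      hm R hR (Cc * R ^ δ * A) H G X' hA' hH hcls hbc hX' h
  set K : ℝ := Cm * R ^ (η / 2) * (Cc * R ^ δ * A) ^ x * R ^ ((n : ℝ) * x / 2 - 1) *
    ∫ ζ, ‖G ζ‖ ^ 2 with hK
  have hI0 : 0 ≤ ∫ ζ, ‖G ζ‖ ^ 2 := integral_nonneg fun ζ => by positivity
  have hK0 : 0 ≤ K := by positivity
  set B : ℝ := Cs * (Cc * R ^ δ * A) * R ^ ((n : ℝ) / 2) with hB
  have hB0 : 0 < B := by positivity
  have hsup : ∀ z, ‖TF G z‖ ≤ B :=
    (hs (1 / 4) R (Cc * R ^ δ * A) G (by norm_num) (by norm_num) hR hA' hcls).2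
  have hcont : Continuous (TF G) := (hSCH n G hTC).1
  set S : Set (Z n) := {z | R ≤ tm z ∧ tm z ≤ 2 * R} with hSdef
  have htm : Continuous (tm : Z n → ℝ) := by
    unfold tm
    fun_prop
  have hSm : MeasurableSet S :=
    (measurableSet_le measurable_const htm.measurable).inter
      (measurableSet_le htm.measurable measurable_const)
  set F : Z n → ℝ := S.indicator (fun z => ‖TF G z‖) with hF
  have hFm : Measurable F := hcont.norm.measurable.indicator hSm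
  have hF0 : ∀ z, 0 ≤ F z := fun z => indicator_nonneg (fun _ _ => norm_nonneg _) z
  have hFB : ∀ z, F z ≤ B := by
    intro z
    by_cases hz : z ∈ S
    · rw [hF, indicator_of_mem hz]
      exact hsup z
    · rw [hF, indicator_of_notMem hz]
      exact hB0.le
  have hFS : ∀ (H : ℝ), 0 < H → ∀ z, H ≤ F z → R ≤ tm z ∧ tm z ≤ 2 * R ∧ H ≤ ‖TF G z‖ := by
    intro H hH z hz
    by_cases hzS : z ∈ S
    · rw [hF, indicator_of_mem hzS] at hz
      exact ⟨hzS.1, hzS.2, hz⟩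
    · rw [hF, indicator_of_notMem hzS] at hz
      linarith
  have h1 := lev_cake (F := F) hFm hF0
    hK0 hB0 (by positivity) hq'
    (fun H hH X' hX' h => hmain H hH X' hX' (fun z hz => hFS H hH z (h z hz))) hFB
  set I : ℝ := (∫⁻ x, ‖f x‖ₑ ^ 2).toReal with hI
  have hI0' : 0 ≤ I := ENNReal.toReal_nonneg
  have hft : ∫⁻ x, ‖f x‖ₑ ^ 2 ≠ ⊤ := by
    obtain ⟨ρ, hρ⟩ := hf.2.2
    have : ∫⁻ x, ‖f x‖ₑ ^ 2 ≤
        ENNReal.ofReal (A ^ 2) * volume (Metric.closedBall (0 : EE (n + 1)) ρ) := by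
      rw [← setLIntegral_const, ← lintegral_indicator measurableSet_closedBall]
      refine lintegral_mono fun x => ?_
      by_cases hx : x ∈ Metric.closedBall (0 : EE (n + 1)) ρ
      · rw [indicator_of_mem hx, ← ofReal_norm, ← ENNReal.ofReal_pow (norm_nonneg _)]
        apply ENNReal.ofReal_le_ofReal
        have := hf.2.1 x
        have h0 := norm_nonneg (f x)
        nlinarith
      · rw [indicator_of_notMem hx, hρ x (by simpa using hx)]
        simp
    exact ne_top_of_le_ne_top (by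
      exact ENNReal.mul_ne_top ENNReal.ofReal_ne_top measure_closedBall_lt_top.ne) this
  have h2 : K ≤ Cm * R ^ (η / 2) * (Cc * R ^ δ * A) ^ x * R ^ ((n : ℝ) * x / 2 - 1) *
      (Cg * R * I) := by
    rw [hK]
    gcongr
    exact hg R A f hR hf
  have h3 : q / (q - (2 + x)) * (B ^ (q - (2 + x)) * K) ≤
      C₁ * (R ^ ((n : ℝ) * (q / 2 - 1) + η) * A ^ (q - 2) * I) := by
    have h4 := levx_const (n := n) (x := x) (q := q) (ε := η / 2) (δ := δ) (η := η) hR hA hCc hCm hCg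
      hCs hI0' hεδ
    have h5 : 0 < q - (2 + x) := by linarith
    calc q / (q - (2 + x)) * (B ^ (q - (2 + x)) * K) ≤ q / (q - (2 + x)) *
          (B ^ (q - (2 + x)) *
            (Cm * R ^ (η / 2) * (Cc * R ^ δ * A) ^ x * R ^ ((n : ℝ) * x / 2 - 1) *
              (Cg * R * I))) := by
          gcongr
      _ ≤ q / (q - (2 + x)) * (Cs ^ (q - (2 + x)) * Cc ^ (q - 2) * Cm * Cg *
            (R ^ ((n : ℝ) * (q / 2 - 1) + η) * A ^ (q - 2) * I)) := by
          gcongr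
      _ = _ := by rw [hC₁]; ring
  have hmF : Measurable (fun z : Z n => ENNReal.ofReal (F z ^ q)) :=
    (hFm.pow_const q).ennreal_ofReal
  have h4 : ∫⁻ t in Icc R (2 * R), ∫⁻ x, ‖Ua a t f x‖ₑ ^ q ≤
      2 * ∫⁻ z, ENNReal.ofReal (F z ^ q) := by
    have h5 := (hCOV n).2.2.1 (fun z => ENNReal.ofReal (F z ^ q)) hmF
    have h6 : 2 * ∫⁻ z, ENNReal.ofReal (F z ^ q) =
        ∫⁻ t : ℝ, ∫⁻ x : EE (n + 1), ENNReal.ofReal (F (zt x t) ^ q) := by
      rw [h5, ← mul_assoc, ENNReal.mul_inv_cancel (by norm_num) (by norm_num), one_mul]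
    rw [h6]
    rw [← lintegral_indicator measurableSet_Icc]
    refine lintegral_mono fun t => ?_
    by_cases ht : t ∈ Icc R (2 * R)
    · rw [indicator_of_mem ht]
      refine lintegral_mono fun x => ?_
      have htz : tm (zt x t : Z n) = t := ((hCOV n).1 x t).2
      have hzS : (zt x t : Z n) ∈ S := by
        rw [hSdef]
        exact ⟨by rw [htz]; exact ht.1, by rw [htz]; exact ht.2⟩
      have hFz : F (zt x t) = ‖TF G (zt x t)‖ := by rw [hF, indicator_of_mem hzS]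
      rw [hFz, ← ENNReal.ofReal_rpow_of_nonneg (norm_nonneg _) (by linarith), ofReal_norm]
      refine ENNReal.rpow_le_rpow ?_ (by linarith)
      rw [hrep, ((hCOV n).1 x t).1, ((hCOV n).1 x t).2, enorm_mul]
      have h7 : 1 ≤ ‖χ (t / R)‖ := hX.2.2.2.1 _ ⟨by rw [le_div_iff₀ hR0]; linarith [ht.1],
        by rw [div_le_iff₀ hR0]; exact ht.2⟩
      have h8 : (1 : ℝ≥0∞) ≤ ‖χ (t / R)‖ₑ := by
        rw [← ofReal_norm]
        exact ENNReal.one_le_ofReal.2 h7
      exact le_mul_of_one_le_right zero_le h8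
    · rw [indicator_of_notMem ht]
      exact zero_le
  refine h4.trans ?_
  calc 2 * ∫⁻ z, ENNReal.ofReal (F z ^ q)
      ≤ 2 * (c₀ * ENNReal.ofReal (C₁ * (R ^ ((n : ℝ) * (q / 2 - 1) + η) * A ^ (q - 2) * I))) := by
        gcongr
        exact h1.trans (mul_le_mul_right (ENNReal.ofReal_le_ofReal h3) _)
    _ = 2 * c₀ * ENNReal.ofReal C₁ *
        ENNReal.ofReal (R ^ ((n : ℝ) * (q / 2 - 1) + η) * A ^ (q - 2)) * ∫⁻ x, ‖f x‖ₑ ^ 2 := by
        have hP0 : 0 ≤ R ^ ((n : ℝ) * (q / 2 - 1) + η) * A ^ (q - 2) := by positivity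
        have e7 : ENNReal.ofReal (C₁ * (R ^ ((n : ℝ) * (q / 2 - 1) + η) * A ^ (q - 2) * I)) =
            ENNReal.ofReal C₁ * (ENNReal.ofReal (R ^ ((n : ℝ) * (q / 2 - 1) + η) * A ^ (q - 2)) *
              ENNReal.ofReal I) := by
          rw [← ENNReal.ofReal_mul hP0, ← ENNReal.ofReal_mul hC₁0.le]
        have e8 : ENNReal.ofReal I = ∫⁻ x, ‖f x‖ₑ ^ 2 := ENNReal.ofReal_toReal hft
        rw [e7, e8]
        ring

end Pool.Agent.H38.HD
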